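import Pool.Agent.Q278.FD

set_option autoImplicit false

namespace Pool.Agent.Results.MP_5b3c88_nt.Full

open Polynomial Finset

/-- `[n]_q` -/
noncomputable def br (n : ℕ) : ℤ[X] := ∑ k ∈ range n, X ^ k

/-- the Gaussian binomial coefficient, as the quotient of the products of the problem
(division by a monic polynomial; it is exact, see `gauss_exact`) -/
noncomputable def gauss (n k : ℕ) : ℤ[X] :=
  (∏ r ∈ Icc 1 n, br r) /ₘ ((∏ s ∈ Icc 1 k, br s) * ∏ t ∈ Icc 1 (n - k), br t)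

/-- Schur's `q`-Fibonacci polynomials -/
noncomputable def F : ℕ → ℤ[X]
  | 0 => 0
  | 1 => 1
  | n + 2 => F (n + 1) + X ^ (n + 1) * F n

/-- `S n = ∑_{k<n} q^{-2k(k+1)} [2k,k] F_{2k+1}(q)`, a Laurent polynomial;
`S_{a,m}` of the problem is `S (5^a * m)` -/
noncomputable def S (n : ℕ) : LaurentPolynomial ℤ :=
  ∑ k ∈ range n, LaurentPolynomial.T (-(2 * (k : ℤ) * (k + 1))) *
    toLaurent (gauss (2 * k) k * F (2 * k + 1))

/-- the quotient defining `gauss` is exact -/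
theorem gauss_exact (n k : ℕ) (hk : k ≤ n) :
    gauss n k * ((∏ s ∈ Icc 1 k, br s) * ∏ t ∈ Icc 1 (n - k), br t) = ∏ r ∈ Icc 1 n, br r := by
  have h1 := Q278.FD.gb_fact n k hk
  have h2 := Q278.FD.gb_divByMonic n k hk
  have h3 : gauss n k = Q278.FA.gb n k := h2.symm
  rw [h3]
  exact h1

theorem F_eq (n : ℕ) : F (2 * n) = (Q278.FB.fg n).1 ∧
    F (2 * n + 1) = (Q278.FB.fg n).1 + X ^ (2 * n) * (Q278.FB.fg n).2 := by
  induction n with
  | zero => simp [F, Q278.FB.fg]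
  | succ n ih =>
    obtain ⟨h1, h2⟩ := ih
    have e1 : F (2 * (n + 1)) = F (2 * n + 1) + X ^ (2 * n + 1) * F (2 * n) := by
      rw [show 2 * (n + 1) = 2 * n + 2 by ring]; rfl
    have e2 : F (2 * (n + 1) + 1) = F (2 * (n + 1)) + X ^ (2 * n + 2) * F (2 * n + 1) := by
      rw [show 2 * (n + 1) + 1 = 2 * n + 1 + 2 by ring]; rfl
    rw [e2, e1, h1, h2]
    simp only [Q278.FB.fg]
    constructor <;> ring

/-- the exact identity behind the congruence -/
theorem S_eq (M n : ℕ) (hn : n ≤ 5 * M) : toLaurent (Q278.FB.Z M n) =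
    LaurentPolynomial.T ((2 * (n : ℤ) + 1) * (n - 1)) * S n := by
  induction n with
  | zero =>
    rw [Q278.FB.Z_zero]
    simp [S]
  | succ n ih =>
    have hS : S (n + 1) = S n + LaurentPolynomial.T (-(2 * (n : ℤ) * (n + 1))) *
        toLaurent (gauss (2 * n) n * F (2 * n + 1)) := by
      unfold S
      rw [sum_range_succ]
    have hg : gauss (2 * n) n = Q278.FA.b n 0 := by
      have h1 := Q278.FD.gb_divByMonic (2 * n) n (by omega)
      have h2 : Q278.FA.b n 0 = Q278.FA.gb (2 * n) n := by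
        unfold Q278.FA.b; rw [add_zero]
      rw [h2, h1]; rfl
    have t1 : (toLaurent (X ^ (4 * n + 1) : ℤ[X])) = LaurentPolynomial.T (4 * (n : ℤ) + 1) := by
      rw [map_pow, toLaurent_X, LaurentPolynomial.T_pow]
      congr 1
      push_cast
      ring
    have t2 : (toLaurent (X ^ n : ℤ[X])) = LaurentPolynomial.T (n : ℤ) := by
      rw [map_pow, toLaurent_X, LaurentPolynomial.T_pow, mul_one]
    have t3 : (LaurentPolynomial.T ((2 * ((n + 1 : ℕ) : ℤ) + 1) * (((n + 1 : ℕ) : ℤ) - 1)) :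
        LaurentPolynomial ℤ) = LaurentPolynomial.T (4 * (n : ℤ) + 1) *
          LaurentPolynomial.T ((2 * (n : ℤ) + 1) * (n - 1)) := by
      rw [← LaurentPolynomial.T_add]
      congr 1
      push_cast
      ring
    have t4 : (LaurentPolynomial.T ((2 * ((n + 1 : ℕ) : ℤ) + 1) * (((n + 1 : ℕ) : ℤ) - 1)) :
        LaurentPolynomial ℤ) * LaurentPolynomial.T (-(2 * (n : ℤ) * (n + 1))) =
          LaurentPolynomial.T (n : ℤ) := by
      rw [← LaurentPolynomial.T_add]
      congr 1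
      push_cast
      ring
    rw [Q278.FB.Z_succ M n (by omega), map_add, map_mul, map_mul, map_mul, ih (by omega), hS,
      mul_add, hg, (F_eq n).2, t1, t2]
    rw [← mul_assoc (LaurentPolynomial.T ((2 * ((n + 1 : ℕ) : ℤ) + 1) * _))
      (LaurentPolynomial.T (-(2 * (n : ℤ) * (n + 1)))), t4, t3, map_mul]
    ring

/-- for all positive `a`, `m` the Laurent polynomial `S_{a,m}(q)`, multiplied by any
sufficiently large power of `q`, is a polynomial divisible by `[5^a]_q^2` in `ℤ[q]` -/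
theorem result (a m : ℕ) (_ha : 0 < a) (hm : 0 < m) :
    ∃ N₀ : ℕ, ∀ N : ℕ, N₀ ≤ N → ∃ P : ℤ[X],
      toLaurent P = LaurentPolynomial.T (N : ℤ) * S (5 ^ a * m) ∧ br (5 ^ a) ^ 2 ∣ P := by
  have hpos : 0 < 5 ^ a * m := by positivity
  obtain ⟨n, hn⟩ : ∃ n, 5 ^ a * m = n + 1 := ⟨5 ^ a * m - 1, by omega⟩
  refine ⟨(2 * n + 3) * n, fun N hN => ?_⟩
  obtain ⟨d, rfl⟩ := Nat.exists_eq_add_of_le hN
  refine ⟨X ^ d * Q278.FB.Z (5 ^ a * m) (5 ^ a * m), ?_, ?_⟩
  · rw [map_mul, S_eq (5 ^ a * m) (5 ^ a * m) (by omega), map_pow, toLaurent_X,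
      LaurentPolynomial.T_pow, ← mul_assoc, ← LaurentPolynomial.T_add]
    congr 2
    rw [hn]
    push_cast
    ring
  · exact (Q278.FD.Z_main a m _ hm rfl).mul_left _

end Pool.Agent.Results.MP_5b3c88_nt.Full
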